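import Mathlib
import Pool.Agent.Lib.helper1.PakCyc

set_option autoImplicit false
set_option linter.unusedSectionVars false

open Finset Filter Topology Matrix

namespace Pool.Agent.Results.MP_ee50b4_pr.NoCutoff

section Defs
variable {n : ℕ} [NeZero n]

/-- Convolution powers of `μ`. -/
noncomputable def conv (μ : ZMod n → ℝ) : ℕ → ZMod n → ℝ
  | 0 => fun x => if x = 0 then 1 else 0
  | t + 1 => fun x => ∑ y, conv μ t y * μ (x - y)

/-- The `ε`-mixing time. -/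
noncomputable def tmix (μ : ZMod n → ℝ) (ε : ℝ) : ℕ :=
  sInf {t : ℕ | (1 / 2) * ∑ x, |conv μ t x - 1 / (n : ℝ)| ≤ ε}

/-- Spectral gap: one minus the largest modulus of a nontrivial Fourier coefficient. -/
noncomputable def gap (μ : ZMod n → ℝ) : ℝ :=
  1 - ⨆ j : {j : ZMod n // j ≠ 0}, ‖∑ x, (μ x : ℂ) *
    Complex.exp (2 * (Real.pi : ℂ) * Complex.I * ((j.1.val : ℂ) * (x.val : ℂ)) / (n : ℂ))‖

/-- Relaxation time. -/
noncomputable def trel (μ : ZMod n → ℝ) : ℝ := 1 / gap μ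

end Defs

open Pool.Agent.Lib.helper1.Pak Pool.Agent.Lib.helper1.PakCyc

lemma conv_eq {n : ℕ} [NeZero n] (μ : ZMod n → ℝ) (t : ℕ) (x : ZMod n) :
    conv μ t x = (M μ ^ t) 0 x := by
  induction t generalizing x with
  | zero => simp [conv, Matrix.one_apply, eq_comm]
  | succ t ih => simp only [conv, ih, pow_succ, Matrix.mul_apply, M]

lemma facts {n : ℕ} [NeZero n] {N : ℕ} {μ : ZMod n → ℝ} (h : GoodW N μ) :
    (0 ≤ trel μ / tmix μ (1 / 2) ∧ trel μ / tmix μ (1 / 2) ≤ 1 / ((N : ℝ) + 1)) ∧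
      (2 : ℝ) ≤ (tmix μ (1 / 20) : ℝ) / (tmix μ (1 - 1 / 20) : ℝ) := by
  have hlow : ∀ t < 20 * (N + 1), 99 / 100 - (t : ℝ) / (40 * ((N : ℝ) + 1)) ≤
      (1 / 2) * ∑ x, |conv μ t x - 1 / (n : ℝ)| :=
    fun t ht => by simpa only [conv_eq, ZMod.card] using M_low h t ht
  have hup : ∀ k : ℕ, (1 / 2) * ∑ x, |conv μ (2 * (k * (N + 1))) x - 1 / (n : ℝ)| ≤
      1 / (1 + 19 * (k : ℝ) / 1600) :=
    fun k => by simpa only [conv_eq, ZMod.card] using M_up h k
  have hnum := numerics (fun t => (1 / 2) * ∑ x, |conv μ t x - 1 / (n : ℝ)|) N hlow hup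
  refine ⟨?_, hnum.2⟩
  have hN : (0 : ℝ) ≤ N := by positivity
  have h1 : 1 / 2 ≤ gap μ := by
    have := Real.iSup_le (fun j : {j : ZMod n // j ≠ 0} => fourier_le h j.1 j.2) (by norm_num)
    unfold gap; linarith
  have h2 : 2 * (N + 1) ≤ tmix μ (1 / 2) := by
    refine le_sInf_nat (fun t => (1 / 2) * ∑ x, |conv μ t x - 1 / (n : ℝ)|) _ _
      ⟨_, (hup 1600).trans (by norm_num)⟩ fun t ht => ?_
    have h3 := hlow t (by omega)
    have h4 : (t : ℝ) ≤ 2 * (N + 1) := by exact_mod_cast ht.le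
    have h5 : (t : ℝ) / (40 * ((N : ℝ) + 1)) ≤ 1 / 20 := by
      rw [div_le_iff₀ (by positivity)]; linarith
    linarith
  have h3 : 2 * ((N : ℝ) + 1) ≤ tmix μ (1 / 2) := by exact_mod_cast h2
  have h4 : trel μ ≤ 2 := by
    rw [trel, div_le_iff₀ (by linarith)]; linarith
  have h5 : 0 ≤ trel μ := by
    rw [trel]; exact div_nonneg zero_le_one (by linarith)
  refine ⟨by positivity, ?_⟩
  rw [div_le_div_iff₀ (by linarith) (by linarith)]
  nlinarith

theorem result :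
    ∃ (n : ℕ → ℕ) (_ : ∀ k, NeZero (n k)) (μ : ∀ k, ZMod (n k) → ℝ),
      (∀ k, 2 ≤ n k) ∧ Tendsto n atTop atTop ∧
      (∀ k x, 0 < μ k x) ∧ (∀ k, ∑ x, μ k x = 1) ∧
      Tendsto (fun k => trel (μ k) / (tmix (μ k) (1 / 2) : ℝ)) atTop (𝓝 0) ∧
      ¬ ∀ ε ∈ Set.Ioo (0 : ℝ) (1 / 2),
        Tendsto (fun k => (tmix (μ k) ε : ℝ) / (tmix (μ k) (1 - ε) : ℝ)) atTop (𝓝 1) := by
  choose n i μ h using packageW
  have hb : ∀ k, k + 2 ≤ n k := fun k => by simpa only [ZMod.card] using (h k).big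
  refine ⟨n, i, μ, fun k => by have := hb k; omega, ?_, fun k => (h k).pos', fun k => (h k).sum,
    ?_, ?_⟩
  · exact tendsto_atTop_mono (fun k => by have := hb k; simp only [id]; omega) tendsto_id
  · exact squeeze_zero (fun k => (facts (h k)).1.1) (fun k => (facts (h k)).1.2)
      tendsto_one_div_add_atTop_nhds_zero_nat
  · intro hc
    have := ge_of_tendsto' (hc (1 / 20) ⟨by norm_num, by norm_num⟩) fun k => (facts (h k)).2
    linarith

end Pool.Agent.Results.MP_ee50b4_pr.NoCutoff
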